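import Pool.Agent.E8helper71.ZB.Nerve
import Pool.Agent.E8helper2.ZB.Stm6

/-! The equivariant nerve theorem for several homeomorphisms: proof of `S_NERVE2`. The proof is the one of
helper71 for `S_NERVE`, with operators in place of a single map. -/

set_option autoImplicit false

namespace Pool.Agent.E8helper41.ZB

open Module Pool.Agent.Helper381 Pool.Agent.E8helper2.ZB Pool.Agent.E8helper71.ZB Finsupp

section Iter

variable {k : Type} [CommRing k]

/-- the iterated differences as a linear map -/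
def itl (k : Type) [CommRing k] {S : Type} : List (S → S) → ((S → k) →ₗ[k] (S → k))
  | [] => LinearMap.id
  | f :: l => (itl k l).comp (pb k f - LinearMap.id)

lemma itl_apply {S : Type} (l : List (S → S)) (a : S → k) : itl k l a = itf l a := by
  induction l generalizing a with
  | nil => rfl
  | cons f l ih =>
    change itl k l ((pb k f - LinearMap.id : (S → k) →ₗ[k] (S → k)) a) = itf l _
    rw [ih]
    rfl

lemma itl_comm {ι S T : Type} (d : (S → k) →ₗ[k] (T → k))
    (fS : ι → S → S) (fT : ι → T → T) (h : ∀ i a, d (pb k (fS i) a) = pb k (fT i) (d a))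
    (l : List ι) (a : S → k) : d (itl k (l.map fS) a) = itl k (l.map fT) (d a) := by
  induction l generalizing a with
  | nil => rfl
  | cons i l ih =>
    change d (itl k (l.map fS) ((pb k (fS i) - LinearMap.id : (S → k) →ₗ[k] (S → k)) a)) =
      itl k (l.map fT) ((pb k (fT i) - LinearMap.id : (T → k) →ₗ[k] (T → k)) (d a))
    rw [ih, LinearMap.sub_apply, LinearMap.sub_apply, map_sub, h]
    rfl

/-- the identity plus the iterated differences -/
def opl (k : Type) [CommRing k] {S : Type} (l : List (S → S)) : (S → k) →ₗ[k] (S → k) :=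
  LinearMap.id + itl k l

lemma opl_sub {S : Type} (l : List (S → S)) (a : S → k) : opl k l a - a = itf l a := by
  rw [← itl_apply]
  change a + itl k l a - a = _
  abel

lemma opl_comm {ι S T : Type} (d : (S → k) →ₗ[k] (T → k))
    (fS : ι → S → S) (fT : ι → T → T) (h : ∀ i a, d (pb k (fS i) a) = pb k (fT i) (d a))
    (l : List ι) (a : S → k) : d (opl k (l.map fS) a) = opl k (l.map fT) (d a) := by
  change d (a + itl k (l.map fS) a) = d a + itl k (l.map fT) (d a)
  rw [map_add, itl_comm d fS fT h]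

end Iter

section Nerve

variable {k : Type} [CommRing k] {X : Type} [TopologicalSpace X] (𝒞 : Set (Set X))

/-- the augmentation -/
def epsm (k : Type) [CommRing k] {X : Type} [TopologicalSpace X] (𝒞 : Set (Set X)) (q : ℕ) :
    (Small 𝒞 q → k) →ₗ[k] (ZZ 𝒞 0 q → k) where
  toFun f z := f ⟨z.1.2, z.1.1.1 0, z.1.1.2.2 0, z.2⟩
  map_add' _ _ := rfl
  map_smul' _ _ := rfl

/-- the other augmentation -/
def etam (k : Type) [CommRing k] {X : Type} [TopologicalSpace X] (𝒞 : Set (Set X)) (p : ℕ) :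
    (Ch 𝒞 p → k) →ₗ[k] (ZZ 𝒞 p 0 → k) where
  toFun b z := b z.1.1
  map_add' _ _ := rfl
  map_smul' _ _ := rfl

theorem nerve_small_gen [Nonempty X]
    (hcap : ∀ σ : Σ n, Sing X n, (∃ C ∈ 𝒞, Set.range σ.2 ⊆ C) →
      ∃ J ∈ 𝒞, Set.range σ.2 ⊆ J ∧ ∀ C ∈ 𝒞, Set.range σ.2 ⊆ C → J ⊆ C)
    (hcone : ∀ C ∈ 𝒞, ConeData C)
    (gA : ∀ n, (Small 𝒞 n → k) →ₗ[k] (Small 𝒞 n → k)) (gB : ∀ n, (Ch 𝒞 n → k) →ₗ[k] (Ch 𝒞 n → k))
    (gD : ∀ p q, (ZZ 𝒞 p q → k) →ₗ[k] (ZZ 𝒞 p q → k))
    (hA : ∀ n x, altd k (smface (𝒞 := 𝒞)) n (gA n x) = gA (n + 1) (altd k (smface (𝒞 := 𝒞)) n x))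
    (hB : ∀ n x, altd k (cface (Q := 𝒞)) n (gB n x) = gB (n + 1) (altd k (cface (Q := 𝒞)) n x))
    (hD1 : ∀ p q x, altd k (S := fun p => ZZ 𝒞 p q) (fun p => face1 q p) p (gD p q x) =
      gD (p + 1) q (altd k (S := fun p => ZZ 𝒞 p q) (fun p => face1 q p) p x))
    (hD2 : ∀ p q x, altd k (S := fun q => ZZ 𝒞 p q) (fun q => face2 p q) q (gD p q x) =
      gD p (q + 1) (altd k (S := fun q => ZZ 𝒞 p q) (fun q => face2 p q) q x))
    (hε : ∀ q x, epsm k 𝒞 q (gA q x) = gD 0 q (epsm k 𝒞 q x))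
    (hη : ∀ p x, etam k 𝒞 p (gB p x) = gD p 0 (etam k 𝒞 p x)) (n : ℕ) :
    (∀ f ∈ LinearMap.ker (altd k (smface (𝒞 := 𝒞)) n), gA n f - f ∈
      cobound k (fun n => Small 𝒞 n → k) (fun n => altd k (smface (𝒞 := 𝒞)) n) n) ↔
    (∀ b ∈ LinearMap.ker (altd k (cface (Q := 𝒞)) n), gB n b - b ∈
      cobound k (fun n => Ch 𝒞 n → k) (fun n => altd k (cface (Q := 𝒞)) n) n) := by
  classical
  -- the least element
  have hJ' : ∀ (q : ℕ) (σ : Sing X q), ∃ J : Set X, (∃ C ∈ 𝒞, Set.range σ ⊆ C) →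
      (J ∈ 𝒞 ∧ Set.range σ ⊆ J ∧ ∀ C ∈ 𝒞, Set.range σ ⊆ C → J ⊆ C) := by
    intro q σ
    by_cases h : ∃ C ∈ 𝒞, Set.range σ ⊆ C
    · obtain ⟨J, h1, h2, h3⟩ := hcap ⟨q, σ⟩ h
      exact ⟨J, fun _ => ⟨h1, h2, h3⟩⟩
    · exact ⟨∅, fun h' => absurd h' h⟩
  choose J hJ using hJ'
  have hcone' : ∀ C : Set X, ∃ (pt : X) (K : ∀ q, Sing X q → Sing X (q + 1)), C ∈ 𝒞 → (pt ∈ C ∧
    (∀ q (σ : Sing X q), Set.range σ ⊆ C → Set.range (K q σ) ⊆ C ∧ sface q 0 (K q σ) = σ) ∧
    (∀ q (σ : Sing X (q + 1)), Set.range σ ⊆ C → ∀ i : Fin (q + 2),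
      sface (q + 1) i.succ (K (q + 1) σ) = K q (sface q i σ)) ∧
    (∀ σ : Sing X 0, Set.range σ ⊆ C → sface 0 1 (K 0 σ) = ContinuousMap.const _ pt)) := by
    intro C
    by_cases h : C ∈ 𝒞
    · obtain ⟨pt, K, hh⟩ := hcone C h
      exact ⟨pt, K, fun _ => hh⟩
    · exact ⟨Classical.arbitrary X, fun q _ => ContinuousMap.const _ (Classical.arbitrary X),
        fun h' => absurd h' h⟩
  choose pt K hcone' using hcone'
  have hpt := fun C hC => (hcone' C hC).1
  have hK1 := fun C hC => (hcone' C hC).2.1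
  have hK2 := fun C hC => (hcone' C hC).2.2.1
  have hK3 := fun C hC => (hcone' C hC).2.2.2
  refine double_complex_triv (k := k)
    (fun q => Small 𝒞 q → k) (fun q => altd k (smface (𝒞 := 𝒞)) q)
    (fun p => Ch 𝒞 p → k) (fun p => altd k (cface (Q := 𝒞)) p)
    (fun p q => ZZ 𝒞 p q → k)
    (fun p q => altd k (S := fun p => ZZ 𝒞 p q) (fun p => face1 q p) p)
    (fun p q => altd k (S := fun q => ZZ 𝒞 p q) (fun q => face2 p q) q)
    (fun q => epsm k 𝒞 q) (fun p => etam k 𝒞 p)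
    ?_ ?_ ?_ ?_ ?_ ?_ ?_ ?_ ?_ ?_ ?_ ?_ ?_
    gA gB gD hA hB hD1 hD2 hε hη n
  · -- d11
    intro p q f
    apply altd_altd
    intro n i j z hij
    apply Subtype.ext
    apply Prod.ext
    · exact cface_cface _ _ _ _ hij
    · rfl
  · -- d22
    intro p q f
    apply altd_altd
    intro n i j z hij
    apply Subtype.ext
    apply Prod.ext
    · rfl
    · exact sface_sface _ _ _ _ hij
  · -- d12
    intro p q f
    funext z
    simp only [altd_apply, Finset.mul_sum]
    rw [Finset.sum_comm]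
    refine Finset.sum_congr rfl fun j _ => Finset.sum_congr rfl fun i _ => ?_
    have : face2 (𝒞 := 𝒞) p q j (face1 (q + 1) p i z) = face1 q p i (face2 (p + 1) q j z) := rfl
    rw [this]
    ring
  · -- εd
    intro q f
    rfl
  · -- ηd
    intro p b
    rfl
  · -- εinj
    intro q f g hfg
    funext σ
    obtain ⟨σ, C, hC, hσ⟩ := σ
    have := congrFun hfg ⟨(⟨fun _ => C, fun a b hab => absurd hab (by
      have := Subsingleton.elim (α := Fin 1) a b; rw [this]; exact lt_irrefl _), fun _ => hC⟩, σ), hσ⟩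
    exact this
  · -- ηinj
    intro p b b' hb
    funext c
    have hc0 := c.2.2 0
    have := congrFun hb ⟨(c, ContinuousMap.const _ (pt (c.1 0))), by
      rintro _ ⟨x, rfl⟩
      exact hpt _ hc0⟩
    exact this
  · -- ε0
    intro q f
    funext z
    change altd k (S := fun p => ZZ 𝒞 p q) (fun p => face1 q p) 0 _ z = 0
    rw [altd_apply, Fin.sum_univ_two]
    simp [face1, epsm]
  · -- η0
    intro p b
    funext z
    change altd k (S := fun q => ZZ 𝒞 p q) (fun q => face2 p q) 0 _ z = 0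
    rw [altd_apply, Fin.sum_univ_two]
    simp [face2, etam]
  · -- εex
    intro q f hf
    have key : ∀ (z z' : ZZ 𝒞 0 q), z.1.2 = z'.1.2 → f z = f z' := by
      have key1 : ∀ z : ZZ 𝒞 0 q, ∀ (h : J q z.1.2 ∈ 𝒞) (h' : Set.range z.1.2 ⊆ J q z.1.2),
          f z = f ⟨(⟨fun _ => J q z.1.2, fun a b hab => absurd hab (by
            have := Subsingleton.elim (α := Fin 1) a b; rw [this]; exact lt_irrefl _),
            fun _ => h⟩, z.1.2), h'⟩ := by
        rintro ⟨⟨c, σ⟩, hz⟩ h h'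
        have hz' : Set.range σ ⊆ c.1 0 := hz
        obtain ⟨hJ1, hJ2, hJ3⟩ := hJ q σ ⟨_, c.2.2 0, hz'⟩
        have hle : J q σ ⊆ c.1 0 := hJ3 _ (c.2.2 0) hz'
        rcases eq_or_lt_of_le (show J q σ ≤ c.1 0 from hle) with heq | hlt
        · congr 1
          apply Subtype.ext
          apply Prod.ext
          · apply Subtype.ext
            funext i
            have hi0 : i = 0 := Subsingleton.elim (α := Fin 1) i 0
            rw [hi0]
            exact heq.symm
          · rfl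
        · have h2 := congrFun hf (⟨(c.consC (J q σ) hJ1 hlt, σ), hJ2⟩ : ZZ 𝒞 1 q)
          rw [altd_apply, Fin.sum_univ_two] at h2
          simp only [Fin.val_zero, pow_zero, one_mul, Fin.val_one, pow_one, neg_mul,
            Pi.zero_apply] at h2
          have e0 : face1 q 0 0 (⟨(c.consC (J q σ) hJ1 hlt, σ), hJ2⟩ : ZZ 𝒞 1 q)
              = ⟨(c, σ), hz⟩ := by
            apply Subtype.ext
            apply Prod.ext
            · exact consC_face_zero c _ hJ1 hlt
            · rfl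
          rw [e0] at h2
          rw [← sub_eq_add_neg, sub_eq_zero] at h2
          rw [h2]
          congr 1
          apply Subtype.ext
          apply Prod.ext
          · apply Subtype.ext
            funext i
            have hi0 : i = 0 := Subsingleton.elim (α := Fin 1) i 0
            rw [hi0]
            simp [face1, cface, Ch.consC]
          · rfl
      intro z z' hzz
      obtain ⟨⟨c, σ⟩, hz⟩ := z
      obtain ⟨⟨c', σ'⟩, hz'⟩ := z'
      simp only at hzz
      subst hzz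
      obtain ⟨hJ1, hJ2, hJ3⟩ := hJ q σ ⟨_, c.2.2 0, hz⟩
      rw [key1 ⟨(c, σ), hz⟩ hJ1 hJ2, key1 ⟨(c', σ), hz'⟩ hJ1 hJ2]
    refine ⟨fun σ => f ⟨(⟨fun _ => J q σ.1, fun a b hab => absurd hab (by
      have := Subsingleton.elim (α := Fin 1) a b; rw [this]; exact lt_irrefl _),
      fun _ => (hJ q σ.1 σ.2).1⟩, σ.1), (hJ q σ.1 σ.2).2.1⟩, ?_⟩
    funext z
    exact key _ _ rfl
  · -- ηex
    intro p f hf
    refine ⟨fun c => f ⟨(c, ContinuousMap.const _ (pt (c.1 0))), by
      rintro _ ⟨x, rfl⟩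
      exact hpt _ (c.2.2 0)⟩, ?_⟩
    funext z
    obtain ⟨⟨c, σ⟩, hz⟩ := z
    have hz' : Set.range σ ⊆ c.1 0 := hz
    have hc0 := c.2.2 0
    have h2 := congrFun hf (⟨(c, K (c.1 0) 0 σ), (hK1 _ hc0 0 σ hz').1⟩ : ZZ 𝒞 p 1)
    rw [altd_apply, Fin.sum_univ_two] at h2
    simp only [Fin.val_zero, pow_zero, one_mul, Fin.val_one, pow_one, neg_mul,
      Pi.zero_apply] at h2
    have h3 := h2
    rw [← sub_eq_add_neg, sub_eq_zero] at h3
    have e0 : face2 p 0 0 (⟨(c, K (c.1 0) 0 σ), (hK1 _ hc0 0 σ hz').1⟩ : ZZ 𝒞 p 1)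
        = ⟨(c, σ), hz⟩ := by
      apply Subtype.ext
      apply Prod.ext
      · rfl
      · exact (hK1 _ hc0 0 σ hz').2
    have e1 : face2 p 0 1 (⟨(c, K (c.1 0) 0 σ), (hK1 _ hc0 0 σ hz').1⟩ : ZZ 𝒞 p 1)
        = ⟨(c, ContinuousMap.const _ (pt (c.1 0))), by
            rintro _ ⟨x, rfl⟩
            exact hpt _ (c.2.2 0)⟩ := by
      apply Subtype.ext
      apply Prod.ext
      · rfl
      · exact hK3 _ hc0 σ hz'
    rw [e0, e1] at h3
    exact h3.symm
  · -- ex1
    intro p q f hf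
    let g : ZZ 𝒞 p q → k := fun z =>
      if h : J q z.1.2 ∈ 𝒞 ∧ Set.range z.1.2 ⊆ J q z.1.2 ∧ J q z.1.2 < z.1.1.1 0 then
      f ⟨(z.1.1.consC (J q z.1.2) h.1 h.2.2, z.1.2), h.2.1⟩ else 0
    have gpos : ∀ (z : ZZ 𝒞 p q) (h : J q z.1.2 ∈ 𝒞 ∧ Set.range z.1.2 ⊆ J q z.1.2 ∧
        J q z.1.2 < z.1.1.1 0), g z = f ⟨(z.1.1.consC (J q z.1.2) h.1 h.2.2, z.1.2), h.2.1⟩ :=
      fun z h => dif_pos h
    have gneg : ∀ (z : ZZ 𝒞 p q) (h : ¬ (J q z.1.2 < z.1.1.1 0)), g z = 0 :=
      fun z h => dif_neg (fun h' => h h'.2.2)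
    refine ⟨g, ?_⟩
    funext z
    obtain ⟨⟨c, σ⟩, hz⟩ := z
    have hz' : Set.range σ ⊆ c.1 0 := hz
    obtain ⟨hJ1, hJ2, hJ3⟩ := hJ q σ ⟨_, c.2.2 0, hz'⟩
    have hle : J q σ ⊆ c.1 0 := hJ3 _ (c.2.2 0) hz'
    rw [altd_apply]
    rcases eq_or_lt_of_le (show J q σ ≤ c.1 0 from hle) with heq | hlt
    · rw [Fin.sum_univ_succ]
      have hlt1 : J q σ < (cface p 0 c).1 0 := by
        rw [heq]
        simp only [cface, Function.comp_apply]
        exact c.2.1 (by simp [Fin.succAbove])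
      have hs : ∀ i : Fin (p + 1), (cface p i.succ c).1 0 = c.1 0 := by
        intro i
        simp [cface]
      have e : ∑ i : Fin (p + 1), (-1 : k) ^ ((i.succ : Fin (p + 2)) : ℕ) *
          g (face1 q p i.succ ⟨(c, σ), hz⟩) = 0 := by
        apply Finset.sum_eq_zero
        intro i _
        rw [gneg, mul_zero]
        change ¬ (J q σ < (cface p i.succ c).1 0)
        rw [hs i, heq]; exact lt_irrefl _
      rw [e, gpos (face1 q p 0 ⟨(c, σ), hz⟩) ⟨hJ1, hJ2, hlt1⟩]
      simp only [Fin.val_zero, pow_zero, one_mul, add_zero]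
      congr 1
      apply Subtype.ext
      apply Prod.ext
      · apply Subtype.ext
        funext x
        refine Fin.cases ?_ (fun x => ?_) x
        · simp [Ch.consC, heq, face1]
        · simp [Ch.consC, cface, face1]
      · rfl
    · have hlti : ∀ i : Fin (p + 2), J q σ < (cface p i c).1 0 := by
        intro i
        refine lt_of_lt_of_le hlt ?_
        exact c.2.1.monotone (Fin.zero_le _)
      have h2 := congrFun hf (⟨(c.consC (J q σ) hJ1 hlt, σ), hJ2⟩ : ZZ 𝒞 (p + 2) q)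
      rw [altd_apply, Fin.sum_univ_succ] at h2
      simp only [Fin.val_zero, pow_zero, one_mul, Pi.zero_apply] at h2
      have e0 : face1 q (p + 1) 0 (⟨(c.consC (J q σ) hJ1 hlt, σ), hJ2⟩ : ZZ 𝒞 (p + 2) q)
          = ⟨(c, σ), hz⟩ := by
        apply Subtype.ext
        apply Prod.ext
        · exact consC_face_zero c _ hJ1 hlt
        · rfl
      rw [e0] at h2
      rw [eq_neg_of_add_eq_zero_left h2, ← Finset.sum_neg_distrib]
      refine Finset.sum_congr rfl fun i _ => ?_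
      have e1 : face1 q (p + 1) i.succ (⟨(c.consC (J q σ) hJ1 hlt, σ), hJ2⟩ : ZZ 𝒞 (p + 2) q)
          = ⟨((cface p i c).consC (J q σ) hJ1 (hlti i), σ), hJ2⟩ := by
        apply Subtype.ext
        apply Prod.ext
        · exact consC_face_succ c _ hJ1 hlt i (hlti i)
        · rfl
      rw [e1, gpos (face1 q p i ⟨(c, σ), hz⟩) ⟨hJ1, hJ2, hlti i⟩]
      simp only [face1, Fin.val_succ, pow_succ]
      ring
  · -- ex2
    intro p q f hf
    refine ⟨fun z => f ⟨(z.1.1, K (z.1.1.1 0) q z.1.2), (hK1 _ (z.1.1.2.2 0) q z.1.2 z.2).1⟩, ?_⟩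
    funext z
    obtain ⟨⟨c, σ⟩, hz⟩ := z
    have hz' : Set.range σ ⊆ c.1 0 := hz
    have hc0 := c.2.2 0
    have h2 := congrFun hf (⟨(c, K (c.1 0) (q + 1) σ), (hK1 _ hc0 _ σ hz').1⟩ : ZZ 𝒞 p (q + 2))
    rw [altd_apply, Fin.sum_univ_succ] at h2
    simp only [Fin.val_zero, pow_zero, one_mul, Pi.zero_apply] at h2
    have e0 : face2 p (q + 1) 0 (⟨(c, K (c.1 0) (q + 1) σ), (hK1 _ hc0 _ σ hz').1⟩ : ZZ 𝒞 p (q + 2))
        = ⟨(c, σ), hz⟩ := by
      apply Subtype.ext
      apply Prod.ext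
      · rfl
      · exact (hK1 _ hc0 _ σ hz').2
    rw [e0] at h2
    rw [altd_apply, eq_neg_of_add_eq_zero_left h2, ← Finset.sum_neg_distrib]
    refine Finset.sum_congr rfl fun i _ => ?_
    have e1 : face2 p (q + 1) i.succ
        (⟨(c, K (c.1 0) (q + 1) σ), (hK1 _ hc0 _ σ hz').1⟩ : ZZ 𝒞 p (q + 2))
        = ⟨(c, K (c.1 0) q (sface q i σ)), (hK1 _ hc0 q _ ((range_sface q i σ).trans hz')).1⟩ := by
      apply Subtype.ext
      apply Prod.ext
      · rfl
      · exact hK2 _ hc0 q σ hz' i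
    rw [e1]
    simp only [face2, Fin.val_succ, pow_succ]
    ring

end Nerve

section Main

variable {k : Type} [CommRing k] {X : Type} [TopologicalSpace X] (𝒞 : Set (Set X))

/-- restriction to small simplices -/
def resm (k : Type) [CommRing k] {X : Type} [TopologicalSpace X] (𝒞 : Set (Set X)) (n : ℕ) :
    (Sing X n → k) →ₗ[k] (Small 𝒞 n → k) where
  toFun a σ := a σ.1
  map_add' _ _ := rfl
  map_smul' _ _ := rfl

theorem small_gen (hopen : ∀ C ∈ 𝒞, IsOpen C) (hcov : ∀ x : X, ∃ C ∈ 𝒞, x ∈ C) (n : ℕ)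
    (gX : (Sing X n → k) →ₗ[k] (Sing X n → k)) (gY : (Small 𝒞 n → k) →ₗ[k] (Small 𝒞 n → k))
    (hX : ∀ x ∈ LinearMap.ker (altd k (sface (X := X)) n),
      gX x ∈ LinearMap.ker (altd k (sface (X := X)) n))
    (hY : ∀ x ∈ LinearMap.ker (altd k (smface (𝒞 := 𝒞)) n),
      gY x ∈ LinearMap.ker (altd k (smface (𝒞 := 𝒞)) n))
    (hr : ∀ f : Sing X n → k, (fun σ : Small 𝒞 n => gX f σ.1) = gY (fun σ => f σ.1)) :
    (∀ f ∈ LinearMap.ker (altd k (sface (X := X)) n), gX f - f ∈
      cobound k (fun n => Sing X n → k) (fun n => altd k (sface (X := X)) n) n) ↔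
    (∀ f ∈ LinearMap.ker (altd k (smface (𝒞 := 𝒞)) n), gY f - f ∈
      cobound k (fun n => Small 𝒞 n → k) (fun n => altd k (smface (𝒞 := 𝒞)) n) n) := by
  classical
  let P : Submodule k ((Sing X n → k) × (Small 𝒞 n → k)) :=
    { carrier := {p | ∀ σ : Small 𝒞 n, p.1 σ.1 = p.2 σ}
      add_mem' := by
        intro a b ha hb σ
        simp only [Prod.fst_add, Prod.snd_add, Pi.add_apply, ha σ, hb σ]
      zero_mem' := by intro σ; rfl
      smul_mem' := by
        intro c a ha σ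
        simp only [Prod.smul_fst, Prod.smul_snd, Pi.smul_apply, ha σ] }
  refine corr_iff (LinearMap.ker (altd k (sface (X := X)) n)) _
    (LinearMap.ker (altd k (smface (𝒞 := 𝒞)) n)) _ P gX gY hX hY ?_ ?_ ?_ ?_
  · intro f h hfh σ
    have h1 : (fun σ : Small 𝒞 n => f σ.1) = h := funext hfh
    have h2 := congrFun (hr f) σ
    rw [h1] at h2
    exact h2
  · intro f hf
    refine ⟨fun σ => f σ.1, ?_, fun σ => rfl⟩
    rw [LinearMap.mem_ker] at hf ⊢
    funext σ
    exact congrFun hf σ.1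
  · intro g hg
    rw [LinearMap.mem_ker] at hg
    refine ⟨fun σ => evc (extz 𝒞 g) (rho 𝒞 n (single σ 1)), ?_, ?_⟩
    · rw [LinearMap.mem_ker]
      funext σ
      rw [altd_eq_ev]
      have h1 : Finsupp.linearCombination ℤ (fun σ => evc (extz 𝒞 g) (rho 𝒞 n (single σ 1))) =
          (evc (extz 𝒞 g)).comp (rho 𝒞 n) := by
        apply Finsupp.lhom_ext'
        intro σ
        apply LinearMap.ext_ring
        simp only [LinearMap.comp_apply, lsingle_apply, linearCombination_single, one_smul]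
      rw [h1, LinearMap.comp_apply, ← sbd_rho, ← ev_altd]
      have h2 := evc_congr (smallSet 𝒞 (n + 1)) (altd k (sface (X := X)) n (extz 𝒞 g)) 0 (by
        intro σ hσ
        rw [extz_altd 𝒞 g σ hσ, hg]
        rfl) _ (rho_small 𝒞 hopen hcov (n + 1) (single σ 1))
      refine h2.trans ?_
      simp [evc]
    · intro σ
      change evc (extz 𝒞 g) (rho 𝒞 n (single σ.1 1)) = g σ
      rw [rho_id 𝒞 n _ (single_mem_supported' σ.2), evc_single]
      exact extz_small 𝒞 g _ σ.2
  · intro f hf g hg hfg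
    have hfg' : ∀ σ : Small 𝒞 n, f σ.1 = g σ := hfg
    rw [LinearMap.mem_ker] at hf hg
    cases n with
    | zero =>
      simp only [cobound, Submodule.mem_bot]
      constructor
      · rintro rfl
        funext σ
        exact (hfg' σ).symm
      · rintro rfl
        funext σ
        obtain ⟨C, hC, hx⟩ := hcov (σ (vert 0 0))
        have hs : σ ∈ smallSet 𝒞 0 := by
          refine ⟨C, hC, ?_⟩
          rintro _ ⟨x, rfl⟩
          have : x = vert 0 0 := Subsingleton.elim (α := stdSimplex ℝ (Fin 1)) _ _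
          rw [this]
          exact hx
        exact hfg' ⟨σ, hs⟩
    | succ n =>
      simp only [cobound, LinearMap.mem_range]
      constructor
      · rintro ⟨h, rfl⟩
        refine ⟨fun σ => h σ.1, ?_⟩
        funext σ
        rw [← hfg' σ]
        rfl
      · rintro ⟨h, rfl⟩
        refine ⟨fun σ => evc (extz 𝒞 h) (rho 𝒞 n (single σ 1)) + evc f (DD 𝒞 n (single σ 1)), ?_⟩
        funext σ
        rw [altd_eq_ev]
        have h1 : Finsupp.linearCombination ℤ
            (fun σ => evc (extz 𝒞 h) (rho 𝒞 n (single σ 1)) + evc f (DD 𝒞 n (single σ 1))) =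
            (evc (extz 𝒞 h)).comp (rho 𝒞 n) + (evc f).comp (DD 𝒞 n) := by
          apply Finsupp.lhom_ext'
          intro σ
          apply LinearMap.ext_ring
          simp only [LinearMap.comp_apply, lsingle_apply, linearCombination_single, one_smul,
            LinearMap.add_apply]
        rw [h1, LinearMap.add_apply, LinearMap.comp_apply, LinearMap.comp_apply]
        -- compute f σ
        have h2 : f σ = evc f (rho 𝒞 (n + 1) (single σ 1)) +
            evc f (sbd X (n + 1) (DD 𝒞 (n + 1) (single σ 1))) +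
            evc f (DD 𝒞 n (sbd X n (single σ 1))) := by
          rw [rho_succ, map_sub, map_sub, evc_single]
          ring
        rw [h2]
        have h3 : evc f (sbd X (n + 1) (DD 𝒞 (n + 1) (single σ 1))) = 0 := by
          rw [← ev_altd, hf]
          simp
        have h4 : evc f (rho 𝒞 (n + 1) (single σ 1)) =
            evc (extz 𝒞 h) (rho 𝒞 n (sbd X n (single σ 1))) := by
          rw [← sbd_rho, ← ev_altd]
          apply evc_congr (smallSet 𝒞 (n + 1)) _ _ _ _ (rho_small 𝒞 hopen hcov (n + 1) _)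
          intro τ hτ
          rw [extz_altd 𝒞 h τ hτ]
          exact hfg' ⟨τ, hτ⟩
        rw [h3, h4, add_zero]

end Main

/-- **The equivariant nerve theorem for several homeomorphisms.** -/
theorem nerve2 : S_NERVE2 := by
  intro k _ X _ _ 𝒞 hopen hcov hcap hcone L g hg n hX
  have hl : ∀ {S : Type} (f : Fin L → S), List.ofFn f = (List.finRange L).map f := fun f =>
    List.ofFn_eq_map
  have h1 := (small_gen (k := k) 𝒞 hopen hcov n
    (opl k ((List.finRange L).map fun i => fun σ : Sing X n =>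
      (⟨g i, (g i).continuous⟩ : C(X, X)).comp σ))
    (opl k ((List.finRange L).map fun i => smg 𝒞 (⟨g i, (g i).continuous⟩ : C(X, X)) (hg i) n))
    (fun x hx => by
      rw [LinearMap.mem_ker] at hx ⊢
      rw [opl_comm (altd k (sface (X := X)) n) _ (fun i => fun σ : Sing X (n + 1) =>
        (⟨g i, (g i).continuous⟩ : C(X, X)).comp σ) (fun i a => rfl), hx, map_zero])
    (fun x hx => by
      rw [LinearMap.mem_ker] at hx ⊢
      rw [opl_comm (altd k (smface (𝒞 := 𝒞)) n) _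
        (fun i => smg 𝒞 (⟨g i, (g i).continuous⟩ : C(X, X)) (hg i) (n + 1)) (fun i a => rfl), hx,
        map_zero])
    (fun f => opl_comm (resm k 𝒞 n) _ _ (fun i a => rfl) _ f)).1 (by
      intro a ha
      have := hX a ha
      rw [coboundaries_eq] at this
      rw [opl_sub, ← hl]
      exact this)
  have h2 := (nerve_small_gen (k := k) 𝒞 hcap hcone
    (fun q => opl k ((List.finRange L).map fun i =>
      smg 𝒞 (⟨g i, (g i).continuous⟩ : C(X, X)) (hg i) q))
    (fun p => opl k ((List.finRange L).map fun i => chm (g i) (g i).injective (hg i) p))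
    (fun p q => opl k ((List.finRange L).map fun i =>
      zzg 𝒞 (⟨g i, (g i).continuous⟩ : C(X, X)) (g i).injective (hg i) p q))
    (fun n x => opl_comm (altd k (smface (𝒞 := 𝒞)) n)
      (fun i => smg 𝒞 (⟨g i, (g i).continuous⟩ : C(X, X)) (hg i) n)
      (fun i => smg 𝒞 (⟨g i, (g i).continuous⟩ : C(X, X)) (hg i) (n + 1)) (fun i a => rfl) _ x)
    (fun n x => opl_comm (altd k (cface (Q := 𝒞)) n)
      (fun i => chm (g i) (g i).injective (hg i) n)
      (fun i => chm (g i) (g i).injective (hg i) (n + 1)) (fun i a => rfl) _ x)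
    (fun p q x => opl_comm (altd k (S := fun p => ZZ 𝒞 p q) (fun p => face1 q p) p)
      (fun i => zzg 𝒞 (⟨g i, (g i).continuous⟩ : C(X, X)) (g i).injective (hg i) p q)
      (fun i => zzg 𝒞 (⟨g i, (g i).continuous⟩ : C(X, X)) (g i).injective (hg i) (p + 1) q)
      (fun i a => rfl) _ x)
    (fun p q x => opl_comm (altd k (S := fun q => ZZ 𝒞 p q) (fun q => face2 p q) q)
      (fun i => zzg 𝒞 (⟨g i, (g i).continuous⟩ : C(X, X)) (g i).injective (hg i) p q)
      (fun i => zzg 𝒞 (⟨g i, (g i).continuous⟩ : C(X, X)) (g i).injective (hg i) p (q + 1))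
      (fun i a => rfl) _ x)
    (fun q x => opl_comm (epsm k 𝒞 q)
      (fun i => smg 𝒞 (⟨g i, (g i).continuous⟩ : C(X, X)) (hg i) q)
      (fun i => zzg 𝒞 (⟨g i, (g i).continuous⟩ : C(X, X)) (g i).injective (hg i) 0 q)
      (fun i a => rfl) _ x)
    (fun p x => opl_comm (etam k 𝒞 p)
      (fun i => chm (g i) (g i).injective (hg i) p)
      (fun i => zzg 𝒞 (⟨g i, (g i).continuous⟩ : C(X, X)) (g i).injective (hg i) p 0)
      (fun i a => rfl) _ x) n).1 h1
  intro b hb
  have h3 := h2 b hb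
  rw [opl_sub, ← hl] at h3
  exact h3

end Pool.Agent.E8helper41.ZB

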