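import Pool.Agent.E8helper2.ZB.Stm8

/-! Finite unions of open boxes in `ℝ ^ m` have no cohomology in the degrees `n ≥ m`, `n ≥ 1`: proof of
`S_BOX`. -/

set_option autoImplicit false

namespace Pool.Agent.E8helper41.ZB

open Pool.Agent.Helper438.Sc Set

universe u v

/-- an open box -/
def bx {m : ℕ} (p : (Fin m → ℝ) × (Fin m → ℝ)) : Set (Fin m → ℝ) :=
  Set.pi univ fun j => Ioo (p.1 j) (p.2 j)

/-- a finite union of boxes -/
def ub {m : ℕ} (s : Finset ((Fin m → ℝ) × (Fin m → ℝ))) : Set (Fin m → ℝ) := {x | ∃ p ∈ s, x ∈ bx p}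

lemma mem_bx {m : ℕ} {p : (Fin m → ℝ) × (Fin m → ℝ)} {x : Fin m → ℝ} :
    x ∈ bx p ↔ ∀ j, p.1 j < x j ∧ x j < p.2 j := by
  simp [bx]

lemma isOpen_bx {m : ℕ} (p : (Fin m → ℝ) × (Fin m → ℝ)) : IsOpen (bx p) :=
  isOpen_set_pi finite_univ fun _ _ => isOpen_Ioo

lemma isOpen_ub {m : ℕ} (s : Finset ((Fin m → ℝ) × (Fin m → ℝ))) : IsOpen (ub s) := by
  have : ub s = ⋃ p ∈ s, bx p := by
    ext x
    simp [ub]
  rw [this]
  exact isOpen_biUnion fun p _ => isOpen_bx p

lemma convex_bx {m : ℕ} (p : (Fin m → ℝ) × (Fin m → ℝ)) : Convex ℝ (bx p) :=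
  convex_pi fun _ _ => convex_Ioo _ _

variable {k : Type v} [CommRing k]

lemma RV_empty (X : Type u) [TopologicalSpace X] [IsEmpty X] (q : ℕ) : RV k X q := by
  have he : ∀ n, Sing X n → False := fun n σ => isEmptyElim (σ (vert n 0))
  cases q with
  | zero => exact fun c _ => ⟨0, fun σ => (he 0 σ).elim⟩
  | succ n => exact fun c _ => ⟨0, funext fun σ => (he (n + 1) σ).elim⟩

lemma RV_bx {m : ℕ} (p : (Fin m → ℝ) × (Fin m → ℝ)) (q : ℕ) : RV k (bx p) q := by
  by_cases h : (bx p).Nonempty
  · have := (convex_bx p).contractibleSpace h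
    exact RV_contractible k q
  · rw [Set.not_nonempty_iff_eq_empty] at h
    have : IsEmpty (bx p) := by rw [h]; infer_instance
    exact RV_empty _ q

/-- a number between -/
lemma ex_between {ι : Type*} (s : Finset ι) (t : ι → ℝ) (α : ℝ) (h : ∀ i ∈ s, α < t i) :
    ∃ c, α < c ∧ ∀ i ∈ s, c < t i := by
  have h1 : ∀ᶠ c in nhdsWithin α (Ioi α), α < c ∧ ∀ i ∈ s, c < t i := by
    refine (eventually_mem_nhdsWithin).and ?_
    rw [Filter.eventually_all_finset]
    intro i hi
    exact Filter.Eventually.filter_mono nhdsWithin_le_nhds (eventually_lt_nhds (h i hi))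
  exact h1.exists

open Classical in
theorem main (m : ℕ) : ∀ (q : ℕ) (s : Finset ((Fin m → ℝ) × (Fin m → ℝ))), m ≤ q →
    RV k (ub s) q := by
  induction m with
  | zero =>
    intro q s _
    by_cases h : (ub s).Nonempty
    · obtain ⟨x, hx⟩ := h
      have : Unique (ub s) := ⟨⟨⟨x, hx⟩⟩, fun y => Subtype.ext (Subsingleton.elim _ _)⟩
      exact RV_contractible k q
    · rw [Set.not_nonempty_iff_eq_empty] at h
      have : IsEmpty (ub s) := by rw [h]; infer_instance
      exact RV_empty _ q
  | succ m IH =>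
    intro q s hq
    obtain ⟨q, rfl⟩ : ∃ q', q = q' + 1 := ⟨q - 1, by omega⟩
    have hq' : m ≤ q := by omega
    induction hn : s.card generalizing s with
    | zero =>
      rw [Finset.card_eq_zero] at hn
      subst hn
      have : IsEmpty (ub (∅ : Finset ((Fin (m + 1) → ℝ) × (Fin (m + 1) → ℝ)))) :=
        ⟨fun x => by obtain ⟨p, hp, _⟩ := x.2; exact absurd hp (Finset.notMem_empty _)⟩
      exact RV_empty _ _
    | succ n ih =>
      have hne : s.Nonempty := by rw [← Finset.card_pos]; omega
      obtain ⟨p, hp, hmax⟩ := s.exists_max_image (fun p => p.1 0) hne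
      have hs' : (s.erase p).card = n := by rw [Finset.card_erase_of_mem hp]; omega
      have hU : ub s = ub (s.erase p) ∪ bx p := by
        ext x
        constructor
        · rintro ⟨r, hr, hx⟩
          by_cases hrp : r = p
          · right; rw [← hrp]; exact hx
          · left; exact ⟨r, Finset.mem_erase.2 ⟨hrp, hr⟩, hx⟩
        · rintro (⟨r, hr, hx⟩ | hx)
          · exact ⟨r, (Finset.mem_erase.1 hr).2, hx⟩
          · exact ⟨p, hp, hx⟩
      rw [hU]
      refine RV_glue k _ _ (isOpen_ub _) (isOpen_bx p) q (ih (s.erase p) hs') (RV_bx p _) ?_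
      -- the intersection
      let t : (Fin (m + 1) → ℝ) × (Fin (m + 1) → ℝ) → ℝ := fun r => min (r.2 0) (p.2 0)
      let s2 := (s.erase p).filter fun r => p.1 0 < t r
      obtain ⟨c, hc0, hc⟩ := ex_between s2 t (p.1 0) fun r hr => (Finset.mem_filter.1 hr).2
      let C : (Fin (m + 1) → ℝ) × (Fin (m + 1) → ℝ) → (Fin m → ℝ) × (Fin m → ℝ) := fun r =>
        (fun j => max (r.1 j.succ) (p.1 j.succ), fun j => min (r.2 j.succ) (p.2 j.succ))
      have hY := IH q (s2.image C) hq'
      -- membership in the intersection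
      have hW : ∀ x : Fin (m + 1) → ℝ, x ∈ ub (s.erase p) ∩ bx p ↔
          ∃ r ∈ s2, p.1 0 < x 0 ∧ x 0 < t r ∧ Fin.tail x ∈ bx (C r) := by
        intro x
        constructor
        · rintro ⟨⟨r, hr, hx⟩, hxp⟩
          rw [mem_bx] at hx hxp
          refine ⟨r, Finset.mem_filter.2 ⟨hr, ?_⟩, (hxp 0).1, lt_min (hx 0).2 (hxp 0).2, ?_⟩
          · exact (hxp 0).1.trans (lt_min (hx 0).2 (hxp 0).2)
          · rw [mem_bx]
            exact fun j => ⟨max_lt (hx j.succ).1 (hxp j.succ).1, lt_min (hx j.succ).2 (hxp j.succ).2⟩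
        · rintro ⟨r, hr, h1, h2, h3⟩
          rw [mem_bx] at h3
          have hr' := (Finset.mem_filter.1 hr).1
          have h4 : r.1 0 ≤ p.1 0 := hmax r (Finset.mem_erase.1 hr').2
          refine ⟨⟨r, hr', mem_bx.2 fun j => ?_⟩, mem_bx.2 fun j => ?_⟩
          · refine Fin.cases ?_ (fun j => ?_) j
            · exact ⟨h4.trans_lt h1, h2.trans_le (min_le_left _ _)⟩
            · exact ⟨(le_max_left _ _).trans_lt (h3 j).1, (h3 j).2.trans_le (min_le_left _ _)⟩
          · refine Fin.cases ?_ (fun j => ?_) j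
            · exact ⟨h1, h2.trans_le (min_le_right _ _)⟩
            · exact ⟨(le_max_right _ _).trans_lt (h3 j).1, (h3 j).2.trans_le (min_le_right _ _)⟩
      have hSm : ∀ x : (ub (s.erase p) ∩ bx p : Set (Fin (m + 1) → ℝ)),
          Fin.tail x.1 ∈ ub (s2.image C) := by
        intro x
        obtain ⟨r, hr, _, _, h3⟩ := (hW x.1).1 x.2
        exact ⟨C r, Finset.mem_image_of_mem C hr, h3⟩
      have hRm : ∀ y : ub (s2.image C),
          (Fin.cons c y.1 : Fin (m + 1) → ℝ) ∈ ub (s.erase p) ∩ bx p := by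
        intro y
        obtain ⟨D, hD, hy⟩ := y.2
        obtain ⟨r, hr, rfl⟩ := Finset.mem_image.1 hD
        refine (hW _).2 ⟨r, hr, ?_, ?_, ?_⟩
        · rw [Fin.cons_zero]; exact hc0
        · rw [Fin.cons_zero]; exact hc r hr
        · rw [Fin.tail_cons]; exact hy
      have hFm : ∀ z : unitInterval × (ub (s.erase p) ∩ bx p : Set (Fin (m + 1) → ℝ)),
          (Fin.cons ((1 - (z.1 : ℝ)) * c + z.1 * z.2.1 0) (Fin.tail z.2.1) : Fin (m + 1) → ℝ) ∈
            ub (s.erase p) ∩ bx p := by
        intro z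
        obtain ⟨r, hr, h1, h2, h3⟩ := (hW z.2.1).1 z.2.2
        have hz0 := z.1.2.1
        have hz1 := z.1.2.2
        refine (hW _).2 ⟨r, hr, ?_, ?_, ?_⟩
        · rw [Fin.cons_zero]
          have := hc r hr
          rcases eq_or_lt_of_le hz0 with h5 | h5
          · rw [← h5]; linarith
          · nlinarith
        · rw [Fin.cons_zero]
          have := hc r hr
          rcases eq_or_lt_of_le hz0 with h5 | h5
          · rw [← h5]; linarith
          · nlinarith
        · rw [Fin.tail_cons]; exact h3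
      have cS : Continuous fun x : (ub (s.erase p) ∩ bx p : Set (Fin (m + 1) → ℝ)) =>
          (Fin.tail x.1 : Fin m → ℝ) :=
        continuous_pi fun j => (continuous_apply j.succ).comp continuous_subtype_val
      have cR : Continuous fun y : ub (s2.image C) => (Fin.cons c y.1 : Fin (m + 1) → ℝ) := by
        refine continuous_pi fun j => ?_
        refine Fin.cases ?_ (fun j => ?_) j
        · simp only [Fin.cons_zero]; exact continuous_const
        · simp only [Fin.cons_succ]
          exact (continuous_apply j).comp continuous_subtype_val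
      have cF : Continuous fun z : unitInterval × (ub (s.erase p) ∩ bx p :
          Set (Fin (m + 1) → ℝ)) =>
          (Fin.cons ((1 - (z.1 : ℝ)) * c + z.1 * z.2.1 0) (Fin.tail z.2.1) : Fin (m + 1) → ℝ) := by
        refine continuous_pi fun j => ?_
        refine Fin.cases ?_ (fun j => ?_) j
        · simp only [Fin.cons_zero]
          have e1 : Continuous fun a : unitInterval ×
              (ub (s.erase p) ∩ bx p : Set (Fin (m + 1) → ℝ)) => (a.1 : ℝ) :=
            continuous_subtype_val.comp continuous_fst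
          exact ((continuous_const.sub e1).mul continuous_const).add
            (e1.mul ((continuous_apply 0).comp (continuous_subtype_val.comp continuous_snd)))
        · simp only [Fin.cons_succ, Fin.tail]
          exact (continuous_apply j.succ).comp (continuous_subtype_val.comp continuous_snd)
      let S : C((ub (s.erase p) ∩ bx p : Set (Fin (m + 1) → ℝ)), ub (s2.image C)) :=
        ⟨fun x => ⟨Fin.tail x.1, hSm x⟩, cS.subtype_mk hSm⟩
      let R : C(ub (s2.image C), (ub (s.erase p) ∩ bx p : Set (Fin (m + 1) → ℝ))) :=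
        ⟨fun y => ⟨Fin.cons c y.1, hRm y⟩, cR.subtype_mk hRm⟩
      refine RV_retract k S R ?_ q hY
      refine ⟨⟨⟨fun z => ⟨Fin.cons ((1 - (z.1 : ℝ)) * c + z.1 * z.2.1 0) (Fin.tail z.2.1), hFm z⟩,
        cF.subtype_mk hFm⟩, ?_, ?_⟩⟩
      · intro x
        apply Subtype.ext
        simp [R, S]
      · intro x
        apply Subtype.ext
        simp

/-- **Piece ZB5-BOX** -/
theorem box : Pool.Agent.E8helper2.ZB.S_BOX := by
  intro k _ m q N a b hm
  classical
  have h := main (k := k) m (q + 1) (Finset.univ.image fun i => (a i, b i)) hm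
  have e : (⋃ i, {x : Fin m → ℝ | ∀ j, a i j < x j ∧ x j < b i j} : Set (Fin m → ℝ)) =
      ub (Finset.univ.image fun i => (a i, b i)) := by
    ext x
    simp [ub, mem_bx]
  rw [e]
  exact h

end Pool.Agent.E8helper41.ZB
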