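import Pool.Agent.E8helper2.ZB.Stm

/-!
# Heights of ideals of polynomials without constant term

Polynomials `f_1, …, f_n` without constant term in `k` variables are contained in a prime ideal
which contains at most `n` linearly independent linear forms (Krull's height theorem).
-/

set_option autoImplicit false

namespace Pool.Agent.E8helper41.ZB

open Module MvPolynomial

variable {F : Type*} [Field F] {k : ℕ}

/-- the linear form with the coefficients `χ` -/
noncomputable def lin (F : Type*) [Field F] (k : ℕ) : (Fin k → F) →ₗ[F] MvPolynomial (Fin k) F :=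
  (Fintype.linearCombination F (fun i : Fin k => (X i : MvPolynomial (Fin k) F)))

theorem lin_apply (χ : Fin k → F) : lin F k χ = ∑ i, C (χ i) * X i := by
  simp only [lin, Fintype.linearCombination_apply, MvPolynomial.smul_eq_C_mul]

theorem lin_single (i : Fin k) : lin F k (Pi.single i 1) = X i := by
  classical
  rw [lin_apply, Finset.sum_eq_single i]
  · simp
  · intro j _ hj
    simp [hj]
  · simp

theorem lin_inj : Function.Injective (lin F k) := by
  exact (linearIndependent_X (σ := Fin k) (R := F)).fintypeLinearCombination_injective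

/-- the substitution given by a linear map -/
noncomputable def sub (π : (Fin k → F) →ₗ[F] (Fin k → F)) :
    MvPolynomial (Fin k) F →ₐ[F] MvPolynomial (Fin k) F :=
  aeval (fun i => lin F k (π (Pi.single i 1)))

theorem sub_lin (π : (Fin k → F) →ₗ[F] (Fin k → F)) (χ : Fin k → F) :
    sub π (lin F k χ) = lin F k (π χ) := by
  have h : (sub π).toLinearMap ∘ₗ lin F k = lin F k ∘ₗ π := by
    refine LinearMap.pi_ext' fun i => LinearMap.ext_ring ?_
    simp only [LinearMap.comp_apply, LinearMap.single_apply, AlgHom.toLinearMap_apply, lin_single]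
    simp [sub]
  exact LinearMap.congr_fun h χ

/-- `span (lin U)` is the kernel of a substitution, so it is prime -/
theorem exists_sub (U : Submodule F (Fin k → F)) : ∃ π : (Fin k → F) →ₗ[F] (Fin k → F),
    (∀ χ, π χ = 0 ↔ χ ∈ U) ∧ RingHom.ker (sub π) = Ideal.span (lin F k '' U) := by
  obtain ⟨V, hV⟩ := U.exists_isCompl
  have hker : ∀ χ, (V.subtype ∘ₗ V.projectionOnto U hV.symm) χ = 0 ↔ χ ∈ U := by
    intro χ
    rw [LinearMap.comp_apply, Submodule.subtype_apply, ZeroMemClass.coe_eq_zero,
      Submodule.projectionOnto_apply_eq_zero_iff]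
  refine ⟨V.subtype ∘ₗ V.projectionOnto U hV.symm, hker, ?_⟩
  set π := V.subtype ∘ₗ V.projectionOnto U hV.symm with hπ
  have hπ2 : ∀ χ, χ - π χ ∈ U := by
    intro χ
    rw [← hker, map_sub, sub_eq_zero, hπ]
    simp only [LinearMap.comp_apply, Submodule.subtype_apply]
    rw [Submodule.projectionOnto_apply_left]
  apply le_antisymm
  · intro f hf
    have h1 : (Ideal.Quotient.mkₐ F (Ideal.span (lin F k '' U))).comp (sub π) =
        Ideal.Quotient.mkₐ F (Ideal.span (lin F k '' U)) := by
      refine MvPolynomial.algHom_ext fun i => ?_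
      rw [AlgHom.comp_apply, Ideal.Quotient.mkₐ_eq_mk, Ideal.Quotient.eq, ← lin_single, sub_lin,
        ← map_sub]
      refine Ideal.subset_span ⟨_, ?_, rfl⟩
      have := U.neg_mem (hπ2 (Pi.single i 1))
      rwa [neg_sub] at this
    have h2 := AlgHom.congr_fun h1 f
    rw [AlgHom.comp_apply, (RingHom.mem_ker).1 hf, map_zero] at h2
    exact Ideal.Quotient.eq_zero_iff_mem.1 h2.symm
  · rw [Ideal.span_le]
    rintro _ ⟨χ, hχ, rfl⟩
    show sub π (lin F k χ) = 0
    rw [sub_lin, (hker χ).2 hχ, map_zero]

theorem isPrime_span (U : Submodule F (Fin k → F)) : (Ideal.span (lin F k '' U)).IsPrime := by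
  obtain ⟨π, -, h⟩ := exists_sub U
  rw [← h]
  exact RingHom.ker_isPrime _

theorem lin_mem (U : Submodule F (Fin k → F)) (χ : Fin k → F) :
    lin F k χ ∈ Ideal.span (lin F k '' U) ↔ χ ∈ U := by
  obtain ⟨π, hπ, h⟩ := exists_sub U
  rw [← h, RingHom.mem_ker, ← hπ]
  show sub π (lin F k χ) = 0 ↔ _
  rw [sub_lin, map_eq_zero_iff _ lin_inj]

theorem height_ge (m : ℕ) : ∀ U : Submodule F (Fin k → F), m ≤ finrank F U →
    (m : ℕ∞) ≤ (Ideal.span (lin F k '' U)).height := by
  induction m with
  | zero => intro U _; simp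
  | succ m ih =>
    intro U hU
    obtain ⟨U', hU'1, hU'2⟩ : ∃ U' : Submodule F (Fin k → F), U' < U ∧ m ≤ finrank F U' := by
      have hU0 : U ≠ ⊥ := by
        rintro rfl
        rw [finrank_bot] at hU
        omega
      obtain ⟨χ, hχ, hχ0⟩ := Submodule.exists_mem_ne_zero_of_ne_bot hU0
      obtain ⟨j, hj⟩ : ∃ j, χ j ≠ 0 := by
        by_contra h
        push Not at h
        exact hχ0 (funext h)
      set φ : U →ₗ[F] F := (LinearMap.proj j).domRestrict U with hφ
      refine ⟨(LinearMap.ker φ).map U.subtype, lt_of_le_of_ne (Submodule.map_subtype_le _ _)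
        fun h => ?_, ?_⟩
      · have h1 : χ ∈ (LinearMap.ker φ).map U.subtype := by
          rw [h]
          exact hχ
        obtain ⟨y, hy, hy'⟩ := h1
        apply hj
        rw [← hy']
        exact hy
      · have h1 := LinearMap.finrank_range_add_finrank_ker φ
        have h2 : finrank F (LinearMap.range φ) ≤ 1 :=
          (Submodule.finrank_le _).trans (finrank_self F).le
        rw [LinearEquiv.finrank_eq (Submodule.equivMapOfInjective U.subtype
          U.subtype_injective (LinearMap.ker φ)).symm]
        omega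
    have := isPrime_span U
    have := isPrime_span U'
    have hlt : Ideal.span (lin F k '' U') < Ideal.span (lin F k '' U) := by
      obtain ⟨χ, hχ, hχ'⟩ := SetLike.exists_of_lt hU'1
      refine lt_of_le_of_ne (Ideal.span_mono (Set.image_mono hU'1.le)) fun h => hχ' ?_
      rw [← lin_mem, h, lin_mem]
      exact hχ
    have h1 := Ideal.height_add_one_le_of_lt_of_isPrime hlt
    refine le_trans ?_ h1
    push_cast
    gcongr
    exact ih U' hU'2

open Pool.Agent.E8helper2.ZB in
theorem ht : S_HT := by
  intro p k n _ f hf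
  have hJ : (RingHom.ker (MvPolynomial.constantCoeff (R := ZMod p) (σ := Fin k))).IsPrime :=
    RingHom.ker_isPrime _
  have hle : Ideal.span (Set.range f) ≤
      RingHom.ker (MvPolynomial.constantCoeff (R := ZMod p) (σ := Fin k)) := by
    rw [Ideal.span_le]
    rintro _ ⟨j, rfl⟩
    exact hf j
  obtain ⟨P, hP, -⟩ := Ideal.exists_minimalPrimes_le hle
  have hPp : P.IsPrime := hP.1.1
  refine ⟨P, hPp, fun j => hP.1.2 (Ideal.subset_span ⟨j, rfl⟩), fun W hW => ?_⟩
  have h1 : P.height ≤ ((Set.range f).ncard : ℕ∞) :=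
    Ideal.height_le_card_of_mem_minimalPrimes_span (Set.finite_range f) hP
  have h2 : (Set.range f).ncard ≤ n := by
    have := Set.ncard_image_le (f := f) (Set.finite_univ (α := Fin n))
    rw [Set.image_univ, Set.ncard_univ, Nat.card_fin] at this
    exact this
  have h3 : Ideal.span (lin (ZMod p) k '' W) ≤ P := by
    rw [Ideal.span_le]
    rintro _ ⟨χ, hχ, rfl⟩
    show lin (ZMod p) k χ ∈ P
    rw [lin_apply]
    exact hW χ hχ
  have h4 := (height_ge _ W le_rfl).trans (Ideal.height_mono h3)
  have h5 := h4.trans (h1.trans (Nat.cast_le.2 h2))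
  exact_mod_cast h5

end Pool.Agent.E8helper41.ZB
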